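import Mathlib
import Pool.Agent.Q95.CycSat

/-!
Problem MP_df7c80_co: the saturation number of the family of all cycles whose length is at
least 4 and congruent to 1 modulo 3.  The proposed value is false for 15 vertices.
-/

namespace Pool.Agent.Results.MP_df7c80_co.FifteenVertices

open SimpleGraph Pool.Agent.Q95.CycSat

/-- `G` is saturated for the family of all cycles with length in `I`: it contains no cycle of
length in `I`, and joining any two non-adjacent vertices creates one. -/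
def CycleSaturated (I : Set ℕ) {n : ℕ} (G : SimpleGraph (Fin n)) : Prop :=
  (∀ r ∈ I, ¬ (cycleGraph r).IsContained G) ∧
  ∀ x y : Fin n, x ≠ y → ¬ G.Adj x y → ∃ r ∈ I, (cycleGraph r).IsContained (G ⊔ edge x y)

/-- The saturation number: the least number of edges of a saturated graph on `n` vertices. -/
noncomputable def sat (n : ℕ) (I : Set ℕ) : ℕ :=
  sInf {e : ℕ | ∃ G : SimpleGraph (Fin n), CycleSaturated I G ∧ G.edgeSet.ncard = e}

/-- The lengths `4, 7, 10, 13, ...`. -/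
def lengths : Set ℕ := {r : ℕ | 4 ≤ r ∧ r % 3 = 1}

/-- Neighbours in the example. -/
def nb : Fin 15 → List (Fin 15) :=
  ![[1, 2, 3, 6], [0, 2, 5, 8], [0, 1, 9], [0, 4, 10], [3, 5, 11], [1, 4, 7, 12], [0, 7, 13],
    [5, 6, 14], [1], [2], [3], [4], [5], [6], [7]]

/-- The example: a graph on 15 vertices with 17 edges. -/
def H : SimpleGraph (Fin 15) where
  Adj a b := b ∈ nb a
  symm := ⟨by decide +kernel⟩
  loopless := ⟨by decide +kernel⟩

instance : DecidableRel H.Adj := fun a b => inferInstanceAs (Decidable (b ∈ nb a))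

/-- Paths joining the non-adjacent pairs. -/
def table : List (List (Fin 15)) :=
  [[0, 1, 5, 4],
    [0, 2, 1, 5],
    [0, 1, 5, 7],
    [0, 2, 1, 8],
    [0, 1, 2, 9],
    [0, 2, 1, 5, 4, 3, 10],
    [0, 3, 4, 11],
    [0, 1, 5, 12],
    [0, 2, 1, 5, 7, 6, 13],
    [0, 6, 7, 14],
    [1, 2, 0, 3],
    [1, 0, 3, 4],
    [1, 2, 0, 6],
    [1, 0, 6, 7],
    [1, 0, 2, 9],
    [1, 0, 3, 10],
    [1, 5, 4, 11],
    [1, 2, 0, 3, 4, 5, 12],
    [1, 0, 6, 13],
    [1, 5, 7, 14],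
    [2, 1, 0, 3],
    [2, 0, 3, 4],
    [2, 0, 1, 5],
    [2, 1, 0, 6],
    [2, 0, 6, 7],
    [2, 0, 1, 8],
    [2, 0, 3, 10],
    [2, 0, 6, 7, 5, 4, 11],
    [2, 1, 5, 12],
    [2, 0, 6, 13],
    [2, 0, 3, 4, 5, 7, 14],
    [3, 0, 1, 5],
    [3, 0, 2, 1, 5, 7, 6],
    [3, 0, 6, 7],
    [3, 0, 1, 8],
    [3, 0, 2, 9],
    [3, 0, 2, 1, 5, 4, 11],
    [3, 4, 5, 12],
    [3, 0, 6, 13],
    [3, 0, 2, 1, 5, 7, 14],
    [4, 3, 0, 6],
    [4, 3, 0, 2, 1, 5, 7],
    [4, 5, 1, 8],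
    [4, 5, 7, 6, 0, 2, 9],
    [4, 5, 1, 2, 0, 3, 10],
    [4, 3, 0, 2, 1, 5, 12],
    [4, 5, 1, 2, 0, 6, 13],
    [4, 5, 7, 14],
    [5, 1, 0, 6],
    [5, 4, 3, 0, 2, 1, 8],
    [5, 1, 2, 9],
    [5, 4, 3, 10],
    [5, 1, 2, 0, 3, 4, 11],
    [5, 7, 6, 13],
    [5, 1, 2, 0, 6, 7, 14],
    [6, 0, 1, 8],
    [6, 0, 2, 9],
    [6, 0, 3, 10],
    [6, 0, 2, 1, 5, 4, 11],
    [6, 7, 5, 12],
    [6, 0, 2, 1, 5, 7, 14],
    [7, 5, 1, 8],
    [7, 5, 4, 3, 0, 2, 9],
    [7, 5, 1, 2, 0, 3, 10],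
    [7, 5, 4, 11],
    [7, 6, 0, 2, 1, 5, 12],
    [7, 5, 1, 2, 0, 6, 13],
    [8, 1, 2, 9],
    [8, 1, 2, 0, 6, 7, 5, 4, 3, 10],
    [8, 1, 2, 0, 3, 4, 11],
    [8, 1, 5, 12],
    [8, 1, 2, 0, 3, 4, 5, 7, 6, 13],
    [8, 1, 2, 0, 6, 7, 14],
    [9, 2, 1, 5, 4, 3, 10],
    [9, 2, 0, 1, 5, 4, 11],
    [9, 2, 0, 3, 4, 5, 12],
    [9, 2, 1, 5, 7, 6, 13],
    [9, 2, 0, 1, 5, 7, 14],
    [10, 3, 4, 11],
    [10, 3, 0, 2, 1, 5, 12],
    [10, 3, 4, 5, 7, 6, 13],
    [10, 3, 0, 1, 5, 7, 14],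
    [11, 4, 5, 12],
    [11, 4, 5, 1, 0, 6, 13],
    [11, 4, 3, 0, 6, 7, 14],
    [12, 5, 1, 2, 0, 6, 13],
    [12, 5, 7, 14],
    [13, 6, 7, 14]]

/-- Boolean test that `l` is a path from `x` to `y` in the example of suitable length. -/
def goodPath (x y : Fin 15) (l : List (Fin 15)) : Bool :=
  decide (4 ≤ l.length ∧ l.length % 3 = 1) && decide (l.getD 0 0 = x) &&
  decide (l.getD (l.length - 1) 0 = y) &&
  decide (∀ i < l.length, ∀ j < l.length, l.getD i 0 = l.getD j 0 → i = j) &&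
  decide (∀ i < l.length - 1, l.getD (i + 1) 0 ∈ nb (l.getD i 0))

theorem table_ok : ∀ x y : Fin 15, x < y → y ∉ nb x → table.any (goodPath x y) = true := by
  decide +kernel

theorem path_cycle {x y : Fin 15} {l : List (Fin 15)} (h : goodPath x y l = true) :
    l.length ∈ lengths ∧ (cycleGraph l.length).IsContained (H ⊔ edge x y) := by
  simp only [goodPath, Bool.and_eq_true, decide_eq_true_eq] at h
  obtain ⟨⟨⟨⟨hl, hx⟩, hy⟩, hinj⟩, hadj⟩ := h
  refine ⟨hl, ?_⟩
  exact contained_of_fun (by omega) (fun i => l.getD i 0) hinj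
    (fun i hi => hadj i (by omega)) x y hx hy

theorem pair_ok (x y : Fin 15) (hxy : x < y) (hn : ¬ H.Adj x y) :
    ∃ r ∈ lengths, (cycleGraph r).IsContained (H ⊔ edge x y) := by
  have h := table_ok x y hxy hn
  rw [List.any_eq_true] at h
  obtain ⟨l, _, hl⟩ := h
  exact ⟨l.length, path_cycle hl⟩

theorem no_four : ∀ s : Fin 15, search nb s 3 [s] = false := by decide +kernel

theorem no_seven : ∀ s : Fin 15, search nb s 6 [s] = false := by decide +kernel

theorem no_ten : ∀ s : Fin 15, search nb s 9 [s] = false := by decide +kernel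

theorem no_thirteen : ∀ s : Fin 15, search nb s 12 [s] = false := by decide +kernel

theorem saturated : CycleSaturated lengths H := by
  refine ⟨?_, ?_⟩
  · rintro r ⟨h4, h3⟩ hc
    have hle := length_le_card hc
    rw [Fintype.card_fin] at hle
    have hr : r = 4 ∨ r = 7 ∨ r = 10 ∨ r = 13 := by omega
    rcases hr with rfl | rfl | rfl | rfl
    · exact not_contained_of_search (nb := nb) (fun v w h => h) (by norm_num) no_four hc
    · exact not_contained_of_search (nb := nb) (fun v w h => h) (by norm_num) no_seven hc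
    · exact not_contained_of_search (nb := nb) (fun v w h => h) (by norm_num) no_ten hc
    · exact not_contained_of_search (nb := nb) (fun v w h => h) (by norm_num) no_thirteen hc
  · intro x y hne hn
    rcases lt_or_gt_of_ne hne with h | h
    · exact pair_ok x y h hn
    · have := pair_ok y x h (fun h' => hn h'.symm)
      rwa [edge_comm] at this

theorem edges : H.edgeSet.ncard = 17 := by
  rw [Set.ncard_eq_toFinset_card']
  decide +kernel

theorem sat_le : sat 15 lengths ≤ 17 := Nat.sInf_le ⟨H, saturated, edges⟩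

/-- The saturation number for `n = 15` vertices is at most 17, while the proposed value is 18;
so the proposed formula fails. -/
theorem result : sat 15 lengths ≤ 17 ∧
    ¬ ∀ n : ℕ, 1 ≤ n → (sat n lengths : ℤ) = ⌈(5 * (n : ℚ)) / 4 - 3 / 2⌉ := by
  refine ⟨sat_le, fun h => ?_⟩
  have h1 := h 15 (by norm_num)
  have h2 : ⌈(5 * ((15 : ℕ) : ℚ)) / 4 - 3 / 2⌉ = 18 := by
    rw [Int.ceil_eq_iff]
    norm_num
  rw [h2] at h1
  have h3 := sat_le
  omega

end Pool.Agent.Results.MP_df7c80_co.FifteenVertices
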